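import Mathlib

set_option autoImplicit false

namespace Pool.Agent.H580DN

open Finset

section comb

variable {d : ℕ} {Ω : Type*} [Fintype Ω]

open Classical in
/-- Mixed counts under the fairness hypothesis. -/
lemma card_mixed (v : Ω → Fin d → ℕ) (M B : ℝ) (hB : 0 < B) (J0 : ℕ)
    (hfair : ∀ j : Fin d → ℕ, ∑ i, j i ≤ J0 →
      ((univ.filter (fun w : Ω => ∀ i, j i ≤ v w i)).card : ℝ) = M / B ^ (∑ i, j i))
    (S : Finset (Fin d)) : ∀ j : Fin d → ℕ, ∑ i, j i + S.card ≤ J0 →
      ((univ.filter (fun w : Ω => (∀ i, j i ≤ v w i) ∧ ∀ i ∈ S, v w i = j i)).card : ℝ) =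
        M / B ^ (∑ i, j i) * (1 - 1 / B) ^ S.card := by
  induction S using Finset.induction_on with
  | empty =>
    intro j hj
    simp only [card_empty, pow_zero, mul_one, notMem_empty, false_imp_iff, imp_true_iff,
      and_true]
    exact hfair j (by simpa using hj)
  | insert a S ha ih =>
    intro j hj
    rw [card_insert_of_notMem ha] at hj ⊢
    have h1 := ih j (by omega)
    have hsum : ∑ i, (Function.update j a (j a + 1)) i = ∑ i, j i + 1 := by
      rw [Finset.sum_update_of_mem (mem_univ a)]
      have : ∑ i, j i = j a + ∑ i ∈ univ \ {a}, j i := by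
        rw [← Finset.sum_update_of_mem (mem_univ a), Function.update_eq_self]
      rw [this]; ring
    have h2 := ih (Function.update j a (j a + 1)) (by rw [hsum]; omega)
    rw [hsum] at h2
    have h3 : univ.filter (fun w : Ω => (∀ i, j i ≤ v w i) ∧ ∀ i ∈ S, v w i = j i) =
        univ.filter (fun w : Ω => (∀ i, j i ≤ v w i) ∧ ∀ i ∈ insert a S, v w i = j i) ∪
        univ.filter (fun w : Ω => (∀ i, (Function.update j a (j a + 1)) i ≤ v w i) ∧
          ∀ i ∈ S, v w i = (Function.update j a (j a + 1)) i) := by
      ext w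
      simp only [mem_filter, mem_univ, true_and, mem_union, mem_insert, forall_eq_or_imp]
      constructor
      · rintro ⟨h4, h5⟩
        by_cases h6 : v w a = j a
        · exact Or.inl ⟨h4, h6, h5⟩
        · right
          refine ⟨?_, ?_⟩
          · intro i
            by_cases hi : i = a
            · subst hi
              rw [Function.update_self]
              have := h4 i
              omega
            · rw [Function.update_of_ne hi]; exact h4 i
          · intro i hi
            have : i ≠ a := fun h => ha (h ▸ hi)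
            rw [Function.update_of_ne this]; exact h5 i hi
      · rintro (⟨h4, h6, h5⟩ | ⟨h4, h5⟩)
        · exact ⟨h4, h5⟩
        · refine ⟨?_, ?_⟩
          · intro i
            by_cases hi : i = a
            · subst hi
              have := h4 i
              rw [Function.update_self] at this
              omega
            · have := h4 i
              rwa [Function.update_of_ne hi] at this
          · intro i hi
            have h7 : i ≠ a := fun h => ha (h ▸ hi)
            have := h5 i hi
            rwa [Function.update_of_ne h7] at this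
    have h4 : Disjoint
        (univ.filter (fun w : Ω => (∀ i, j i ≤ v w i) ∧ ∀ i ∈ insert a S, v w i = j i))
        (univ.filter (fun w : Ω => (∀ i, (Function.update j a (j a + 1)) i ≤ v w i) ∧
          ∀ i ∈ S, v w i = (Function.update j a (j a + 1)) i)) := by
      rw [Finset.disjoint_left]
      intro w hw hw'
      simp only [mem_filter, mem_univ, true_and, mem_insert, forall_eq_or_imp] at hw hw'
      have h5 := hw'.1 a
      rw [Function.update_self] at h5
      omega
    have h5 := congrArg Finset.card h3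
    rw [card_union_of_disjoint h4] at h5
    have h6 : ((univ.filter (fun w : Ω => (∀ i, j i ≤ v w i) ∧
        ∀ i ∈ insert a S, v w i = j i)).card : ℝ) =
        M / B ^ (∑ i, j i) * (1 - 1 / B) ^ S.card -
          M / B ^ (∑ i, j i + 1) * (1 - 1 / B) ^ S.card := by
      rw [← h1, ← h2, h5]
      push_cast
      ring
    rw [h6, pow_succ (1 - 1 / B), pow_succ B]
    have h7 : M / (B ^ (∑ i, j i) * B) = M / B ^ (∑ i, j i) * (1 / B) := by
      field_simp
    rw [h7]
    ring

/-- Descending to a prescribed sum. -/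
lemma exists_le_sum_eq (m : Fin d → ℕ) (K : ℕ) (h : K ≤ ∑ i, m i) :
    ∃ k : Fin d → ℕ, (∀ i, k i ≤ m i) ∧ ∑ i, k i = K := by
  obtain ⟨n, hn⟩ : ∃ n, ∑ i, m i = K + n := ⟨∑ i, m i - K, by omega⟩
  induction n generalizing m with
  | zero => exact ⟨m, fun i => le_rfl, by omega⟩
  | succ n ih =>
    have hpos : 0 < ∑ i, m i := by omega
    obtain ⟨a, -, ha⟩ := Finset.exists_ne_zero_of_sum_ne_zero (by omega : ∑ i, m i ≠ 0)
    have hsum : ∑ i, (Function.update m a (m a - 1)) i + 1 = ∑ i, m i := by
      rw [Finset.sum_update_of_mem (mem_univ a)]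
      have : ∑ i, m i = m a + ∑ i ∈ univ \ {a}, m i := by
        rw [← Finset.sum_update_of_mem (mem_univ a), Function.update_eq_self]
      rw [this]; omega
    obtain ⟨k, hk, hk2⟩ := ih (Function.update m a (m a - 1)) (by omega) (by omega)
    refine ⟨k, ?_, hk2⟩
    intro i
    refine (hk i).trans ?_
    by_cases hi : i = a
    · subst hi; rw [Function.update_self]; omega
    · rw [Function.update_of_ne hi]

open Classical in
/-- The counting inequality.  `v` is a `ℕ^d`-valued statistic on a finite set whose lower tails are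
exactly fair up to total level `d K`; then its distribution on the sparse grid `d • [0,K)^d` is
deficient by about the number of grid points with `|k| = K`. -/
lemma grid_deficit (hd : 1 ≤ d) (v : Ω → Fin d → ℕ) (M B : ℝ) (hB : 1 ≤ B) (hM : 0 ≤ M) (K : ℕ)
    (hfair : ∀ j : Fin d → ℕ, ∑ i, j i ≤ d * K →
      ((univ.filter (fun w : Ω => ∀ i, j i ≤ v w i)).card : ℝ) = M / B ^ (∑ i, j i))
    (w0 : Ω) (hw0 : ∀ i, d * K ≤ v w0 i) (hsmall : d * M / B ^ (d * K) / B ≤ 1 / 4) :
    (3 / 4 : ℝ) * ((Fintype.piFinset (fun _ : Fin d => range K)).filter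
        (fun k => ∑ i, k i = K)).card ≤
      ∑ k ∈ Fintype.piFinset (fun _ : Fin d => range K),
        M / B ^ (∑ i, d * k i) * (1 - 1 / B) ^ d -
      ((univ.filter (fun w : Ω => ∃ k ∈ Fintype.piFinset (fun _ : Fin d => range K),
        ∀ i, v w i = d * k i)).card : ℝ) := by
  have hB0 : 0 < B := by linarith
  set P := Fintype.piFinset (fun _ : Fin d => range K) with hP
  have hmemP : ∀ k : Fin d → ℕ, k ∈ P ↔ ∀ i, k i < K := by
    intro k; rw [hP, Fintype.mem_piFinset]; simp
  -- the atoms
  set A : (Fin d → ℕ) → Finset Ω := fun k => univ.filter (fun w => ∀ i, v w i = d * k i) with hA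
  have hcount : ((univ.filter (fun w : Ω => ∃ k ∈ P, ∀ i, v w i = d * k i)).card : ℝ) =
      ∑ k ∈ P, ((A k).card : ℝ) := by
    have h1 : univ.filter (fun w : Ω => ∃ k ∈ P, ∀ i, v w i = d * k i) = P.biUnion A := by
      ext w; simp [hA]
    rw [h1, card_biUnion]
    · push_cast; rfl
    · intro k _ k' _ hne
      rw [Function.onFun, Finset.disjoint_left]
      intro w hw hw'
      simp only [hA, mem_filter, mem_univ, true_and] at hw hw'
      apply hne
      funext i
      have h2 := hw i
      have h3 := hw' i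
      rw [h2] at h3
      exact Nat.eq_of_mul_eq_mul_left (by omega) h3
  have hsumd : ∀ k : Fin d → ℕ, ∑ i, d * k i = d * ∑ i, k i := fun k => by
    rw [Finset.mul_sum]
  -- exact part
  have hexact : ∀ k : Fin d → ℕ, ∑ i, k i < K →
      ((A k).card : ℝ) = M / B ^ (∑ i, d * k i) * (1 - 1 / B) ^ d := by
    intro k hk
    have h1 := card_mixed v M B hB0 (d * K) hfair univ (fun i => d * k i) (by
      rw [card_univ, Fintype.card_fin, hsumd]
      calc d * ∑ i, k i + d = d * (∑ i, k i + 1) := by ring
        _ ≤ d * K := Nat.mul_le_mul_left d hk)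
    rw [card_univ, Fintype.card_fin] at h1
    rw [← h1]
    congr 2
    ext w
    simp only [hA, mem_filter, mem_univ, true_and, forall_true_left]
    constructor
    · intro h; exact ⟨fun i => (h i).ge, h⟩
    · intro h; exact h.2
  -- critical level
  set E : (Fin d → ℕ) → Finset Ω :=
    fun k => univ.filter (fun w => (∀ i, d * k i ≤ v w i) ∧ ¬ ∀ i, v w i = d * k i) with hE
  have hcrit : ∀ k : Fin d → ℕ, ∑ i, k i = K →
      ((E k).card : ℝ) - 1 / 4 ≤ M / B ^ (∑ i, d * k i) * (1 - 1 / B) ^ d - ((A k).card : ℝ) := by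
    intro k hk
    have h1 := hfair (fun i => d * k i) (by rw [hsumd, hk])
    have h2 : univ.filter (fun w : Ω => ∀ i, d * k i ≤ v w i) = A k ∪ E k := by
      ext w
      simp only [hA, hE, mem_filter, mem_univ, true_and, mem_union]
      constructor
      · intro h
        by_cases h' : ∀ i, v w i = d * k i
        · exact Or.inl h'
        · exact Or.inr ⟨h, h'⟩
      · rintro (h | h)
        · exact fun i => (h i).ge
        · exact h.1
    have h3 : Disjoint (A k) (E k) := by
      rw [Finset.disjoint_left]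
      intro w hw hw'
      simp only [hA, hE, mem_filter, mem_univ, true_and] at hw hw'
      exact hw'.2 hw
    rw [h2, card_union_of_disjoint h3] at h1
    push_cast at h1
    rw [hsumd, hk] at h1 ⊢
    have h4 : 1 - (d : ℝ) / B ≤ (1 - 1 / B) ^ d := by
      have h5 : (-2 : ℝ) ≤ -(1 / B) := by
        have : 1 / B ≤ 1 := by rw [div_le_one hB0]; exact hB
        linarith
      have h6 := one_add_mul_le_pow h5 d
      calc 1 - (d : ℝ) / B = 1 + d * (-(1 / B)) := by ring
        _ ≤ (1 + -(1 / B)) ^ d := h6
        _ = (1 - 1 / B) ^ d := by ring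
    have h7 : 0 ≤ M / B ^ (d * K) := by positivity
    have h8 := mul_le_mul_of_nonneg_left h4 h7
    have h9 : M / B ^ (d * K) * (1 - (d : ℝ) / B) = M / B ^ (d * K) -
        d * M / B ^ (d * K) / B := by ring
    rw [h9] at h8
    linarith
  -- reservoir inequality
  have hres : (((P.filter (fun k => ∑ i, k i = K)).card : ℕ) : ℝ) +
      ∑ k ∈ P.filter (fun k => K < ∑ i, k i), ((A k).card : ℝ) ≤
      ∑ k ∈ P.filter (fun k => ∑ i, k i = K), ((E k).card : ℝ) := by
    have e1 : ∀ (Q : Finset (Fin d → ℕ)) (R : (Fin d → ℕ) → Ω → Prop)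
        [∀ k w, Decidable (R k w)],
        ∑ k ∈ Q, (((univ.filter (fun w => R k w)).card : ℕ) : ℝ) =
        ∑ w : Ω, ((Q.filter (fun k => R k w)).card : ℝ) := by
      intro Q R _
      simp_rw [Finset.card_filter]
      push_cast
      rw [Finset.sum_comm]
    have eA := e1 (P.filter (fun k => K < ∑ i, k i)) (fun k w => ∀ i, v w i = d * k i)
    have eE := e1 (P.filter (fun k => ∑ i, k i = K))
      (fun k w => (∀ i, d * k i ≤ v w i) ∧ ¬ ∀ i, v w i = d * k i)
    simp only [hA, hE]
    rw [eA, eE]
    have e2 : (((P.filter (fun k => ∑ i, k i = K)).card : ℕ) : ℝ) =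
        ∑ w : Ω, if w = w0 then (((P.filter (fun k => ∑ i, k i = K)).card : ℕ) : ℝ) else 0 := by
      rw [Finset.sum_ite_eq' univ w0]
      simp
    rw [e2, ← Finset.sum_add_distrib]
    apply Finset.sum_le_sum
    intro w _
    -- at most one `k` in the second filter
    have e3 : (((P.filter (fun k => K < ∑ i, k i)).filter
        (fun k => ∀ i, v w i = d * k i)).card) ≤ 1 := by
      rw [Finset.card_le_one]
      intro a ha b hb
      simp only [mem_filter] at ha hb
      funext i
      have h2 := ha.2 i
      have h3 := hb.2 i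
      rw [h2] at h3
      exact Nat.eq_of_mul_eq_mul_left (by omega) h3
    by_cases hw : w = w0
    · subst hw
      rw [if_pos rfl]
      have e4 : ((P.filter (fun k => K < ∑ i, k i)).filter
        (fun k => ∀ i, v w i = d * k i)) = ∅ := by
        rw [Finset.filter_eq_empty_iff]
        intro k hk hk2
        rw [mem_filter, hmemP] at hk
        have h1 := hk.1 ⟨0, hd⟩
        have h2 := hk2 ⟨0, hd⟩
        have h3 := hw0 ⟨0, hd⟩
        rw [h2] at h3
        have h4 := Nat.le_of_mul_le_mul_left h3 (by omega : 0 < d)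
        omega
      have e5 : ((P.filter (fun k => ∑ i, k i = K)).filter
          (fun k => (∀ i, d * k i ≤ v w i) ∧ ¬ ∀ i, v w i = d * k i)) =
          P.filter (fun k => ∑ i, k i = K) := by
        rw [Finset.filter_eq_self]
        intro k hk
        rw [mem_filter, hmemP] at hk
        refine ⟨?_, ?_⟩
        · intro i
          exact (Nat.mul_le_mul_left d (hk.1 i).le).trans (hw0 i)
        · intro h
          have h1 := hk.1 ⟨0, hd⟩
          have h2 := h ⟨0, hd⟩
          have h3 := hw0 ⟨0, hd⟩
          rw [h2] at h3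
          have h4 := Nat.le_of_mul_le_mul_left h3 (by omega : 0 < d)
          omega
      rw [e4, e5]
      simp
    · rw [if_neg hw, zero_add]
      have e6 : (((P.filter (fun k => K < ∑ i, k i)).filter
        (fun k => ∀ i, v w i = d * k i)).card) ≤
        ((P.filter (fun k => ∑ i, k i = K)).filter
          (fun k => (∀ i, d * k i ≤ v w i) ∧ ¬ ∀ i, v w i = d * k i)).card := by
        rcases Nat.eq_zero_or_pos (((P.filter (fun k => K < ∑ i, k i)).filter
          (fun k => ∀ i, v w i = d * k i)).card) with h0 | h0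
        · rw [h0]; exact Nat.zero_le _
        · refine e3.trans ?_
          obtain ⟨m, hm⟩ := Finset.card_pos.mp h0
          simp only [mem_filter, hmemP] at hm
          obtain ⟨⟨hm1, hm2⟩, hm3⟩ := hm
          obtain ⟨k, hk1, hk2⟩ := exists_le_sum_eq m K hm2.le
          rw [Nat.succ_le_iff, Finset.card_pos]
          refine ⟨k, ?_⟩
          simp only [mem_filter, hmemP]
          refine ⟨⟨fun i => (hk1 i).trans_lt (hm1 i), hk2⟩, ?_, ?_⟩
          · intro i; rw [hm3 i]; exact Nat.mul_le_mul_left d (hk1 i)
          · intro h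
            have : k = m := by
              funext i
              have h1 := h i
              rw [hm3 i] at h1
              exact (Nat.eq_of_mul_eq_mul_left (by omega) h1).symm
            rw [this] at hk2
            omega
      exact_mod_cast e6
  -- assemble
  rw [hcount, ← Finset.sum_sub_distrib]
  have hsplit : ∑ k ∈ P, (M / B ^ (∑ i, d * k i) * (1 - 1 / B) ^ d - ((A k).card : ℝ)) =
      ∑ k ∈ P.filter (fun k => ∑ i, k i = K),
        (M / B ^ (∑ i, d * k i) * (1 - 1 / B) ^ d - ((A k).card : ℝ)) +
      (∑ k ∈ (P.filter (fun k => ¬ ∑ i, k i = K)).filter (fun k => K < ∑ i, k i),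
        (M / B ^ (∑ i, d * k i) * (1 - 1 / B) ^ d - ((A k).card : ℝ)) +
      ∑ k ∈ (P.filter (fun k => ¬ ∑ i, k i = K)).filter (fun k => ¬ K < ∑ i, k i),
        (M / B ^ (∑ i, d * k i) * (1 - 1 / B) ^ d - ((A k).card : ℝ))) := by
    rw [Finset.sum_filter_add_sum_filter_not, Finset.sum_filter_add_sum_filter_not]
  rw [hsplit]
  have hf2 : (P.filter (fun k => ¬ ∑ i, k i = K)).filter (fun k => K < ∑ i, k i) =
      P.filter (fun k => K < ∑ i, k i) := by
    rw [Finset.filter_filter]
    apply Finset.filter_congr
    intro k _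
    constructor
    · intro h; exact h.2
    · intro h; exact ⟨by omega, h⟩
  rw [hf2]
  have h3 : ∑ k ∈ (P.filter (fun k => ¬ ∑ i, k i = K)).filter (fun k => ¬ K < ∑ i, k i),
        (M / B ^ (∑ i, d * k i) * (1 - 1 / B) ^ d - ((A k).card : ℝ)) = 0 := by
    apply Finset.sum_eq_zero
    intro k hk
    simp only [mem_filter] at hk
    rw [hexact k (by omega)]
    ring
  rw [h3]
  have h1 : ∑ k ∈ P.filter (fun k => ∑ i, k i = K), (((E k).card : ℝ) - 1 / 4) ≤
      ∑ k ∈ P.filter (fun k => ∑ i, k i = K),
        (M / B ^ (∑ i, d * k i) * (1 - 1 / B) ^ d - ((A k).card : ℝ)) := by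
    apply Finset.sum_le_sum
    intro k hk
    exact hcrit k (mem_filter.mp hk).2
  have h2 : - ∑ k ∈ P.filter (fun k => K < ∑ i, k i), ((A k).card : ℝ) ≤
      ∑ k ∈ P.filter (fun k => K < ∑ i, k i),
        (M / B ^ (∑ i, d * k i) * (1 - 1 / B) ^ d - ((A k).card : ℝ)) := by
    rw [← Finset.sum_neg_distrib]
    apply Finset.sum_le_sum
    intro k _
    have hb : 0 ≤ 1 - 1 / B := by
      have : 1 / B ≤ 1 := by rw [div_le_one hB0]; exact hB
      linarith
    have : 0 ≤ M / B ^ (∑ i, d * k i) * (1 - 1 / B) ^ d := by positivity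
    linarith
  rw [Finset.sum_sub_distrib, Finset.sum_const, nsmul_eq_mul] at h1
  linarith

/-- Number of compositions in the box. -/
lemma card_antidiag (hd : 2 ≤ d) (K : ℕ) : (K / d) ^ (d - 1) ≤
    ((Fintype.piFinset (fun _ : Fin d => range K)).filter (fun k => ∑ i, k i = K)).card := by
  obtain ⟨e, rfl⟩ : ∃ e, d = e + 1 := ⟨d - 1, by omega⟩
  have he : 1 ≤ e := by omega
  set m := K / (e + 1) with hm
  have hmK : (e + 1) * m ≤ K := Nat.mul_div_le K (e + 1)
  simp only [Nat.add_sub_cancel]
  have h1 : m ^ e = (Fintype.piFinset (fun _ : Fin e => Icc 1 m)).card := by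
    rw [Fintype.card_piFinset]; simp
  rw [h1]
  apply Finset.card_le_card_of_injOn
    (fun f : Fin e → ℕ => (Fin.cons (K - ∑ i, f i) f : Fin (e + 1) → ℕ))
  · intro f hf
    rw [Finset.mem_coe, Fintype.mem_piFinset] at hf
    have hf' : ∀ i, 1 ≤ f i ∧ f i ≤ m := fun i => Finset.mem_Icc.mp (hf i)
    have hs1 : ∑ i, f i ≤ e * m := by
      calc ∑ i, f i ≤ ∑ _i : Fin e, m := Finset.sum_le_sum (fun i _ => (hf' i).2)
        _ = e * m := by simp
    have hs2 : e ≤ ∑ i, f i := by
      calc e = ∑ _i : Fin e, 1 := by simp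
        _ ≤ ∑ i, f i := Finset.sum_le_sum (fun i _ => (hf' i).1)
    have hm1 : 1 ≤ m := (hf' ⟨0, he⟩).1.trans (hf' ⟨0, he⟩).2
    have hexp : (e + 1) * m = e * m + m := by ring
    have hem : m ≤ e * m := Nat.le_mul_of_pos_left m he
    rw [Finset.mem_coe, mem_filter, Fintype.mem_piFinset]
    refine ⟨?_, ?_⟩
    · intro i
      refine Fin.cases ?_ ?_ i
      · simp only [Fin.cons_zero, mem_range]; omega
      · intro i
        simp only [Fin.cons_succ, mem_range]
        have := (hf' i).2
        omega
    · rw [Fin.sum_univ_succ]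
      simp only [Fin.cons_zero, Fin.cons_succ]
      omega
  · intro f _ g _ h
    exact (Fin.cons_injective2 h).2

end comb

end Pool.Agent.H580DN
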