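import Mathlib

set_option autoImplicit false

namespace Pool.Agent.H580DN

open Finset

section digits

variable {b : ℕ}

lemma tail_le (hb : 2 ≤ b) (a : ℕ → ℝ) (ha : ∀ p, a p ≤ (b:ℝ) - 1) (c : ℕ)
    (h0 : ∀ p < c, a p = 0) (n : ℕ) (hn : c ≤ n) :
    ∑ p ∈ range n, a p / (b:ℝ) ^ (p + 1) ≤ 1 / (b:ℝ) ^ c - 1 / (b:ℝ) ^ n := by
  have hb0 : (0:ℝ) < b := by exact_mod_cast (by omega : 0 < b)
  induction n, hn using Nat.le_induction with
  | base =>
    rw [Finset.sum_eq_zero]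
    · simp
    · intro p hp
      rw [h0 p (mem_range.mp hp), zero_div]
  | succ n hn ih =>
    rw [Finset.sum_range_succ]
    have h1 : a n / (b:ℝ) ^ (n + 1) ≤ ((b:ℝ) - 1) / (b:ℝ) ^ (n + 1) :=
      div_le_div_of_nonneg_right (ha n) (by positivity)
    have h2 : ((b:ℝ) - 1) / (b:ℝ) ^ (n + 1) = 1 / (b:ℝ) ^ n - 1 / (b:ℝ) ^ (n + 1) := by
      rw [pow_succ]; field_simp
    linarith

lemma lt_pow (hb : 2 ≤ b) (a : ℕ → ℝ) (ha : ∀ p, a p ≤ (b:ℝ) - 1) (c : ℕ)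
    (h0 : ∀ p < c, a p = 0) (n : ℕ) :
    ∑ p ∈ range n, a p / (b:ℝ) ^ (p + 1) < 1 / (b:ℝ) ^ c := by
  have hb0 : (0:ℝ) < b := by exact_mod_cast (by omega : 0 < b)
  rcases le_or_gt c n with h | h
  · refine (tail_le hb a ha c h0 n h).trans_lt ?_
    have : 0 < 1 / (b:ℝ) ^ n := by positivity
    linarith
  · rw [Finset.sum_eq_zero]
    · positivity
    · intro p hp
      rw [h0 p ((mem_range.mp hp).trans h), zero_div]

/-- Lexicographic comparison. -/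
lemma lex_lt (hb : 2 ≤ b) (x y : ℕ → ℝ) (p0 : ℕ) (hx : ∀ p, 0 ≤ x p) (hy : ∀ p, y p ≤ (b:ℝ) - 1)
    (heq : ∀ p < p0, x p = y p) (hlt : y p0 + 1 ≤ x p0) (n : ℕ) (hn : p0 + 1 ≤ n) :
    ∑ p ∈ range n, y p / (b:ℝ) ^ (p + 1) < ∑ p ∈ range n, x p / (b:ℝ) ^ (p + 1) := by
  have hb0 : (0:ℝ) < b := by exact_mod_cast (by omega : 0 < b)
  have key : ∑ p ∈ range n, (y p - x p) / (b:ℝ) ^ (p + 1) ≤ - (1 / (b:ℝ) ^ n) := by
    induction n, hn using Nat.le_induction with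
    | base =>
      rw [Finset.sum_range_succ, Finset.sum_eq_zero, zero_add, ← neg_div]
      · exact div_le_div_of_nonneg_right (by linarith) (by positivity)
      · intro p hp
        rw [heq p (mem_range.mp hp), sub_self, zero_div]
    | succ n hn ih =>
      rw [Finset.sum_range_succ]
      have h1 : (y n - x n) / (b:ℝ) ^ (n + 1) ≤ ((b:ℝ) - 1) / (b:ℝ) ^ (n + 1) :=
        div_le_div_of_nonneg_right (by linarith [hx n, hy n]) (by positivity)
      have h2 : ((b:ℝ) - 1) / (b:ℝ) ^ (n + 1) = 1 / (b:ℝ) ^ n - 1 / (b:ℝ) ^ (n + 1) := by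
        rw [pow_succ]; field_simp
      linarith
  have h3 : ∑ p ∈ range n, (y p - x p) / (b:ℝ) ^ (p + 1) =
      ∑ p ∈ range n, y p / (b:ℝ) ^ (p + 1) - ∑ p ∈ range n, x p / (b:ℝ) ^ (p + 1) := by
    rw [← Finset.sum_sub_distrib]
    exact Finset.sum_congr rfl (fun p _ => by ring)
  rw [h3] at key
  have : 0 < 1 / (b:ℝ) ^ n := by positivity
  linarith

/-- The chosen positions: the digits of the blocks with index divisible by `d`. -/
def Sel (r ℓ d K : ℕ) (p : ℕ) : Prop := r ≤ p ∧ d ∣ (p - r) / ℓ ∧ (p - r) / ℓ < d * K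

open Classical in
lemma block_sum (hb : 2 ≤ b) (s ℓ : ℕ) :
    ∑ q ∈ range ℓ, ((b:ℝ) - 1) / (b:ℝ) ^ (s + q + 1) = 1 / (b:ℝ) ^ s - 1 / (b:ℝ) ^ (s + ℓ) := by
  have hb0 : (0:ℝ) < b := by exact_mod_cast (by omega : 0 < b)
  induction ℓ with
  | zero => simp
  | succ ℓ ih =>
    rw [Finset.sum_range_succ, ih]
    have h2 : ((b:ℝ) - 1) / (b:ℝ) ^ (s + ℓ + 1) =
        1 / (b:ℝ) ^ (s + ℓ) - 1 / (b:ℝ) ^ (s + ℓ + 1) := by
      rw [pow_succ]; field_simp
    rw [h2, ← add_assoc]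
    ring

open Classical in
lemma sel_sum (hb : 2 ≤ b) (r ℓ d K : ℕ) (hℓ : 1 ≤ ℓ) (hd : 1 ≤ d) :
    ∑ p ∈ range (r + ℓ * (d * K)),
      (if r ≤ p ∧ d ∣ (p - r) / ℓ then (b:ℝ) - 1 else 0) / (b:ℝ) ^ (p + 1) =
    ∑ k ∈ range K, (1 / (b:ℝ) ^ (r + ℓ * (d * k)) - 1 / (b:ℝ) ^ (r + ℓ * (d * k) + ℓ)) := by
  induction K with
  | zero =>
    rw [Finset.sum_eq_zero]
    · simp
    · intro p hp
      simp only [mul_zero, add_zero, mem_range] at hp
      rw [if_neg (by omega), zero_div]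
  | succ K ih =>
    have e1 : r + ℓ * (d * (K + 1)) = (r + ℓ * (d * K)) + (ℓ * d) := by ring
    rw [e1, Finset.sum_range_add, ih, Finset.sum_range_succ]
    congr 1
    have e2 : ℓ * d = ℓ + ℓ * (d - 1) := by
      obtain ⟨e, rfl⟩ : ∃ e, d = e + 1 := ⟨d - 1, by omega⟩
      simp only [Nat.add_sub_cancel]; ring
    rw [← block_sum hb, e2, Finset.sum_range_add]
    have h3 : ∑ x ∈ range (ℓ * (d - 1)),
        (if r ≤ r + ℓ * (d * K) + (ℓ + x) ∧ d ∣ (r + ℓ * (d * K) + (ℓ + x) - r) / ℓ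
          then (b:ℝ) - 1 else 0) / (b:ℝ) ^ (r + ℓ * (d * K) + (ℓ + x) + 1) = 0 := by
      apply Finset.sum_eq_zero
      intro x hx
      rw [mem_range] at hx
      rw [if_neg, zero_div]
      rintro ⟨-, h4⟩
      have e3 : r + ℓ * (d * K) + (ℓ + x) - r = x + ℓ * (d * K + 1) := by
        have : ℓ * (d * K + 1) = ℓ * (d * K) + ℓ := by ring
        omega
      rw [e3, Nat.add_mul_div_left _ _ (by omega : 0 < ℓ)] at h4
      have h5 : x / ℓ < d - 1 := Nat.div_lt_of_lt_mul hx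
      have h6 : d ∣ x / ℓ + 1 := by
        have h7 : x / ℓ + (d * K + 1) = d * K + (x / ℓ + 1) := by ring
        rw [h7] at h4
        exact (Nat.dvd_add_right (dvd_mul_right d K)).mp h4
      have h8 := Nat.le_of_dvd (Nat.succ_pos _) h6
      omega
    rw [h3, add_zero]
    apply Finset.sum_congr rfl
    intro x hx
    rw [mem_range] at hx
    rw [if_pos]
    refine ⟨by omega, ?_⟩
    have e3 : r + ℓ * (d * K) + x - r = x + ℓ * (d * K) := by omega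
    rw [e3, Nat.add_mul_div_left _ _ (by omega : 0 < ℓ), Nat.div_eq_of_lt hx, zero_add]
    exact dvd_mul_right d K

end digits

end Pool.Agent.H580DN
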