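import Mathlib

set_option autoImplicit false

namespace Pool.Agent.H580DN

open Finset MeasureTheory

/-- Local discrepancy of a finite family of points. -/
noncomputable def lDisc {ι : Type*} [Fintype ι] {d : ℕ} (ξ : ι → Fin d → ℝ) (x : Fin d → ℝ) : ℝ :=
  ∏ j, x j - (1 / (Fintype.card ι : ℝ)) *
    ∑ μ : ι, (Set.Icc (0 : Fin d → ℝ) x).indicator (fun _ => (1:ℝ)) (ξ μ)

open Classical in
lemma halfopen {ι : Type*} [Fintype ι] {d : ℕ} (ξ : ι → Fin d → ℝ) (hξ : ∀ μ i, 0 ≤ ξ μ i)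
    (D : ℝ) (hD : 0 ≤ D)
    (h : eLpNorm (lDisc ξ) ⊤ (volume.restrict (Set.Icc (0 : Fin d → ℝ) 1)) ≤ ENNReal.ofReal D)
    (y : Fin d → ℝ) (hy0 : ∀ i, 0 < y i) (hy1 : ∀ i, y i ≤ 1) :
    |∏ i, y i - (1 / (Fintype.card ι : ℝ)) *
      ((univ.filter (fun μ => ∀ i, ξ μ i < y i)).card : ℝ)| ≤ D := by
  by_contra hcon
  push Not at hcon
  set cnt : ℝ := ((univ.filter (fun μ => ∀ i, ξ μ i < y i)).card : ℝ) with hcnt
  set g : (Fin d → ℝ) → ℝ := fun x => |∏ i, x i - (1 / (Fintype.card ι : ℝ)) * cnt| with hg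
  have hgc : Continuous g := by
    rw [hg]; fun_prop
  have hgy : D < g y := hcon
  have hev : ∀ᶠ x in nhds y, D < g x := hgc.continuousAt.eventually (lt_mem_nhds hgy)
  obtain ⟨δ, hδ, hball⟩ := Metric.eventually_nhds_iff.mp hev
  -- choose a small ε
  have hε : ∀ᶠ ε : ℝ in nhdsWithin 0 (Set.Ioi 0), (∀ i, ε < y i) ∧ ε < δ ∧
      ∀ μ, ∀ i, ξ μ i < y i → ξ μ i < y i - ε := by
    refine Filter.Eventually.and ?_ (Filter.Eventually.and ?_ ?_)
    · rw [Filter.eventually_all]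
      intro i
      exact mem_nhdsWithin_of_mem_nhds (Iio_mem_nhds (hy0 i))
    · exact mem_nhdsWithin_of_mem_nhds (Iio_mem_nhds hδ)
    · rw [Filter.eventually_all]
      intro μ
      rw [Filter.eventually_all]
      intro i
      by_cases hlt : ξ μ i < y i
      · have : ∀ᶠ ε : ℝ in nhdsWithin 0 (Set.Ioi 0), ε < y i - ξ μ i :=
          mem_nhdsWithin_of_mem_nhds (Iio_mem_nhds (by linarith))
        filter_upwards [this] with ε hε _
        linarith
      · exact Filter.Eventually.of_forall (fun ε h => absurd h hlt)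
  obtain ⟨ε, ⟨hε1, hε2, hε3⟩, hε0⟩ := (hε.and self_mem_nhdsWithin).exists
  have hε0 : 0 < ε := hε0
  set O : Set (Fin d → ℝ) := Set.pi Set.univ (fun i => Set.Ioo (y i - ε) (y i)) with hO
  have hOopen : IsOpen O := isOpen_set_pi Set.finite_univ (fun i _ => isOpen_Ioo)
  have hOne : O.Nonempty := ⟨fun i => y i - ε / 2, fun i _ => ⟨by linarith, by linarith⟩⟩
  have hOpos : (volume O) ≠ 0 := (hOopen.measure_pos volume hOne).ne'
  have hOsub : O ⊆ Set.Icc (0 : Fin d → ℝ) 1 := by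
    intro x hx
    constructor
    · intro i
      have h1 := (hx i (Set.mem_univ i)).1
      have h2 := hε1 i
      show (0:ℝ) ≤ x i
      linarith
    · intro i
      have h1 := (hx i (Set.mem_univ i)).2
      have h2 := hy1 i
      show x i ≤ 1
      linarith
  rw [eLpNorm_exponent_top] at h
  have hae : ∀ᵐ x ∂(volume.restrict (Set.Icc (0 : Fin d → ℝ) 1)),
      ‖lDisc ξ x‖ₑ ≤ ENNReal.ofReal D := by
    filter_upwards [enorm_ae_le_eLpNormEssSup (lDisc ξ)
      (volume.restrict (Set.Icc (0 : Fin d → ℝ) 1))] with x hx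
    exact hx.trans h
  have hae2 : ∀ᵐ x ∂(volume.restrict O), ‖lDisc ξ x‖ₑ ≤ ENNReal.ofReal D :=
    ae_restrict_of_ae_restrict_of_subset hOsub hae
  obtain ⟨x, hxO, hx⟩ := Measure.exists_mem_of_measure_ne_zero_of_ae hOpos hae2
  have hind : ∑ μ : ι, (Set.Icc (0 : Fin d → ℝ) x).indicator (fun _ => (1:ℝ)) (ξ μ) = cnt := by
    rw [hcnt, Finset.card_filter]
    push_cast
    apply Finset.sum_congr rfl
    intro μ _
    rw [Set.indicator_apply]
    congr 1
    apply propext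
    constructor
    · intro h i
      have h1 : ξ μ i ≤ x i := h.2 i
      exact h1.trans_lt (hxO i (Set.mem_univ i)).2
    · intro h
      exact ⟨fun i => hξ μ i, fun i => ((hε3 μ i (h i)).trans (hxO i (Set.mem_univ i)).1).le⟩
  have hle : |lDisc ξ x| ≤ D := by
    rw [← ofReal_norm, ENNReal.ofReal_le_ofReal_iff hD, Real.norm_eq_abs] at hx
    exact hx
  have hgx : g x = |lDisc ξ x| := by
    rw [hg]
    simp only [lDisc, hind]
  have hdist : dist x y < δ := by
    rw [dist_pi_lt_iff hδ]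
    intro i
    rw [Real.dist_eq, abs_lt]
    have h1 := hxO i (Set.mem_univ i)
    constructor
    · linarith [h1.1]
    · linarith [h1.2]
  have := hball hdist
  rw [hgx] at this
  linarith

/-- The trivial lower bound `1 / (2 N)`. -/
lemma not_lt_half {ι : Type*} [Fintype ι] [Nonempty ι] {d : ℕ} (hd : 1 ≤ d)
    (ξ : ι → Fin d → ℝ) (hξ : ∀ μ i, 0 ≤ ξ μ i) (D : ℝ)
    (h : eLpNorm (lDisc ξ) ⊤ (volume.restrict (Set.Icc (0 : Fin d → ℝ) 1)) < ENNReal.ofReal D) :
    1 / (2 * (Fintype.card ι : ℝ)) < D := by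
  classical
  have hN : (0:ℝ) < Fintype.card ι := by exact_mod_cast Fintype.card_pos
  have hN1 : (1:ℝ) ≤ Fintype.card ι := by exact_mod_cast Fintype.card_pos (α := ι)
  have hfin : eLpNorm (lDisc ξ) ⊤ (volume.restrict (Set.Icc (0 : Fin d → ℝ) 1)) ≠ ⊤ :=
    (h.trans ENNReal.ofReal_lt_top).ne
  set E := (eLpNorm (lDisc ξ) ⊤ (volume.restrict (Set.Icc (0 : Fin d → ℝ) 1))).toReal with hE
  have hE0 : 0 ≤ E := ENNReal.toReal_nonneg
  have hEeq : eLpNorm (lDisc ξ) ⊤ (volume.restrict (Set.Icc (0 : Fin d → ℝ) 1)) =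
      ENNReal.ofReal E := (ENNReal.ofReal_toReal hfin).symm
  have hED : E < D := by
    rw [hEeq] at h
    exact (ENNReal.ofReal_lt_ofReal_iff_of_nonneg hE0).mp h
  have h1 := halfopen ξ hξ E hE0 hEeq.le
    (fun i => if i = ⟨0, hd⟩ then 1 / (2 * (Fintype.card ι : ℝ)) else 1)
    (fun i => by
      split_ifs
      · positivity
      · norm_num)
    (fun i => by
      split_ifs
      · rw [div_le_one (by positivity)]; linarith
      · norm_num)
  rw [Finset.prod_ite_eq' univ, if_pos (mem_univ _)] at h1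
  set c := (univ.filter (fun μ => ∀ i, ξ μ i <
    (fun i => if i = ⟨0, hd⟩ then 1 / (2 * (Fintype.card ι : ℝ)) else 1) i)).card with hc
  refine lt_of_le_of_lt ?_ hED
  refine le_trans ?_ h1
  rcases Nat.eq_zero_or_pos c with h0 | h0
  · rw [h0]
    simp only [Nat.cast_zero, mul_zero, sub_zero]
    exact le_abs_self _
  · have h2 : (1:ℝ) ≤ c := by exact_mod_cast h0
    rw [abs_sub_comm]
    refine le_trans ?_ (le_abs_self _)
    have h3 : 1 / (Fintype.card ι : ℝ) * 1 ≤ 1 / (Fintype.card ι : ℝ) * c :=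
      mul_le_mul_of_nonneg_left h2 (by positivity)
    have h4 : 1 / (Fintype.card ι : ℝ) * 1 = 2 * (1 / (2 * (Fintype.card ι : ℝ))) := by
      field_simp
    linarith

end Pool.Agent.H580DN
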