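import Pool.Agent.H580DN.Net

set_option autoImplicit false

namespace Pool.Agent.H580DN

open Finset MeasureTheory

section main

variable {d n b : ℕ} {G V : Type*} [AddCommGroup G] [AddCommGroup V]

open Classical in
/-- The shift: digit `b - 1` on the selected positions, digit `0` elsewhere. -/
noncomputable def sh (hb : 2 ≤ b) (ψ : Fin d → Fin n → G ≃ Fin b) (ri : Fin d → ℕ) (ℓ K : ℕ)
    (i : Fin d) (j : Fin n) : G :=
  if Sel (ri i) ℓ d K j then (ψ i j).symm ⟨b - 1, by omega⟩ else (ψ i j).symm ⟨0, by omega⟩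

open Classical in
lemma xdig_zero_sh (hb : 2 ≤ b) (ψ : Fin d → Fin n → G ≃ Fin b)
    (C : V →+ (Fin d → Fin n → G)) (ri : Fin d → ℕ) (ℓ K : ℕ) (i : Fin d) (p : ℕ) (hp : p < n) :
    xdig ψ C (sh hb ψ ri ℓ K) 0 i p = if Sel (ri i) ℓ d K p then (b:ℝ) - 1 else 0 := by
  unfold xdig
  rw [dif_pos hp, map_zero]
  simp only [Pi.zero_apply, zero_add]
  unfold sh
  by_cases h : Sel (ri i) ℓ d K p
  · have h' : Sel (ri i) ℓ d K ((⟨p, hp⟩ : Fin n) : ℕ) := h
    rw [if_pos h, if_pos h', Equiv.apply_symm_apply]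
    show ((b - 1 : ℕ) : ℝ) = _
    rw [Nat.cast_sub (by omega)]
    simp
  · have h' : ¬ Sel (ri i) ℓ d K ((⟨p, hp⟩ : Fin n) : ℕ) := h
    rw [if_neg h, if_neg h', Equiv.apply_symm_apply]
    simp

lemma xdig_eq_of_dig (ψ : Fin d → Fin n → G ≃ Fin b)
    (C : V →+ (Fin d → Fin n → G)) (σ : Fin d → Fin n → G) (v : V) (i : Fin d) (p : ℕ)
    (h : dig C v i p = 0) : xdig ψ C σ v i p = xdig ψ C σ 0 i p := by
  unfold xdig
  unfold dig at h
  split_ifs with hp
  · rw [dif_pos hp] at h
    rw [h, map_zero]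
    rfl
  · rfl

open Classical in
lemma first_sel (hb : 2 ≤ b) (ψ : Fin d → Fin n → G ≃ Fin b)
    (C : V →+ (Fin d → Fin n → G)) (ri : Fin d → ℕ) (ℓ K : ℕ) (i : Fin d) (v : V)
    (h : nPt ψ C (sh hb ψ ri ℓ K) v i < nPt ψ C (sh hb ψ ri ℓ K) 0 i) :
    ∃ p0, Sel (ri i) ℓ d K p0 ∧ (∀ p < p0, dig C v i p = 0) ∧ dig C v i p0 ≠ 0 := by
  set σ := sh hb ψ ri ℓ K with hσ
  have hex : ∃ p, dig C v i p ≠ 0 := by
    by_contra hcon
    push Not at hcon
    rw [nPt_eq, nPt_eq] at h
    have : ∑ p ∈ range n, xdig ψ C σ v i p / (b:ℝ) ^ (p + 1) =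
        ∑ p ∈ range n, xdig ψ C σ 0 i p / (b:ℝ) ^ (p + 1) := by
      apply Finset.sum_congr rfl
      intro p _
      rw [xdig_eq_of_dig ψ C σ v i p (hcon p)]
    rw [this] at h
    exact lt_irrefl _ h
  obtain ⟨p0, hspec, hmin⟩ : ∃ p0, dig C v i p0 ≠ 0 ∧ ∀ p < p0, dig C v i p = 0 := by
    refine ⟨Nat.find hex, Nat.find_spec hex, ?_⟩
    intro p hp
    have := Nat.find_min hex hp
    push Not at this
    exact this
  refine ⟨p0, ?_, hmin, hspec⟩
  by_contra hns
  have hp0n : p0 < n := by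
    by_contra hcon
    unfold dig at hspec
    rw [dif_neg hcon] at hspec
    exact hspec rfl
  have hx0 : xdig ψ C σ 0 i p0 = 0 := by
    rw [hσ, xdig_zero_sh hb ψ C ri ℓ K i _ hp0n, if_neg hns]
  have hne : xdig ψ C σ 0 i p0 + 1 ≤ xdig ψ C σ v i p0 := by
    rw [hx0, zero_add]
    have h1 : xdig ψ C σ v i p0 ≠ xdig ψ C σ 0 i p0 := by
      unfold xdig
      rw [dif_pos hp0n, dif_pos hp0n, map_zero]
      simp only [Pi.zero_apply, zero_add]
      intro h2
      have h3 := Nat.cast_injective h2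
      have h4 := (ψ i ⟨p0, hp0n⟩).injective (Fin.ext h3)
      have h5 : C v i ⟨p0, hp0n⟩ = 0 := by
        simpa using h4
      unfold dig at hspec
      rw [dif_pos hp0n] at hspec
      exact hspec h5
    rw [hx0] at h1
    unfold xdig at h1 ⊢
    rw [dif_pos hp0n] at h1 ⊢
    have h2 : ((ψ i ⟨p0, hp0n⟩ (C v i ⟨p0, hp0n⟩ +
        σ i ⟨p0, hp0n⟩) : Fin b) : ℕ) ≠ 0 := by
      intro h3
      rw [h3] at h1
      exact h1 (by simp)
    exact_mod_cast Nat.one_le_iff_ne_zero.mpr h2
  have h2 := lex_lt hb (xdig ψ C σ v i) (xdig ψ C σ 0 i) p0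
    (xdig_nonneg ψ C σ v i) (xdig_le hb ψ C σ 0 i)
    (fun p hp => xdig_eq_of_dig ψ C σ v i p (hmin p hp)) hne n hp0n
  rw [← nPt_eq, ← nPt_eq] at h2
  exact absurd h (not_lt.mpr h2.le)

open Classical in
/-- The value of the corner. -/
lemma y_val (hd : 1 ≤ d) (hb : 2 ≤ b) (ψ : Fin d → Fin n → G ≃ Fin b)
    (C : V →+ (Fin d → Fin n → G)) (ri : Fin d → ℕ) (ℓ K : ℕ) (hℓ : 1 ≤ ℓ) (i : Fin d)
    (hn : ri i + ℓ * (d * K) ≤ n) :
    nPt ψ C (sh hb ψ ri ℓ K) 0 i =
      ∑ k ∈ range K, 1 / (b:ℝ) ^ (ri i) * (1 / ((b:ℝ) ^ ℓ) ^ (d * k) * (1 - 1 / (b:ℝ) ^ ℓ)) := by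
  have hb0 : (0:ℝ) < b := by exact_mod_cast (by omega : 0 < b)
  have h1 : nPt ψ C (sh hb ψ ri ℓ K) 0 i = ∑ p ∈ range (ri i + ℓ * (d * K)),
      (if ri i ≤ p ∧ d ∣ (p - ri i) / ℓ then (b:ℝ) - 1 else 0) / (b:ℝ) ^ (p + 1) := by
    rw [nPt_eq]
    have h2 : range (ri i + ℓ * (d * K)) ⊆ range n := Finset.range_subset_range.mpr hn
    rw [← Finset.sum_subset h2]
    · apply Finset.sum_congr rfl
      intro p hp
      rw [mem_range] at hp
      rw [xdig_zero_sh hb ψ C ri ℓ K i p (by omega)]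
      congr 1
      have : Sel (ri i) ℓ d K p ↔ (ri i ≤ p ∧ d ∣ (p - ri i) / ℓ) := by
        unfold Sel
        constructor
        · rintro ⟨a, b, _⟩; exact ⟨a, b⟩
        · rintro ⟨a, b⟩
          refine ⟨a, b, ?_⟩
          apply Nat.div_lt_of_lt_mul
          omega
      by_cases hS : Sel (ri i) ℓ d K p
      · rw [if_pos hS, if_pos (this.mp hS)]
      · rw [if_neg hS, if_neg (fun h => hS (this.mpr h))]
    · intro p hp hp'
      rw [mem_range] at hp hp'
      rw [xdig_zero_sh hb ψ C ri ℓ K i p hp, if_neg, zero_div]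
      rintro ⟨h3, -, h4⟩
      have h5 := (Nat.div_lt_iff_lt_mul (by omega : 0 < ℓ)).mp h4
      have h6 : d * K * ℓ = ℓ * (d * K) := by ring
      omega
  rw [h1, sel_sum hb (ri i) ℓ d K hℓ hd]
  apply Finset.sum_congr rfl
  intro k _
  have e : (b:ℝ) ^ (ri i + ℓ * (d * k)) = (b:ℝ) ^ (ri i) * ((b:ℝ) ^ ℓ) ^ (d * k) := by
    rw [pow_add, pow_mul]
  rw [pow_add _ (ri i + ℓ * (d * k)) ℓ, e]
  field_simp

lemma card_sub {V : Type*} [Fintype V] (Q P : V → Prop) [Fintype {w // Q w}]
    [DecidablePred (fun w : {w // Q w} => P w.1)] [DecidablePred (fun w : V => Q w ∧ P w)] :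
    (univ.filter (fun w : {w // Q w} => P w.1)).card =
      (univ.filter (fun w : V => Q w ∧ P w)).card := by
  classical
  rw [← Finset.card_map (Function.Embedding.subtype Q)]
  congr 1
  ext w
  simp only [mem_map, mem_filter, mem_univ, true_and, Function.Embedding.subtype_apply,
    Subtype.exists, exists_and_left, exists_prop, exists_eq_right_right]
  tauto

open Classical in
lemma main_ineq [Fintype G] [Fintype V] (hd : 1 ≤ d) (hb : 2 ≤ b) (hG : Fintype.card G = b)
    (ψ : Fin d → Fin n → G ≃ Fin b) (C : V →+ (Fin d → Fin n → G)) (T : ℝ) (hT : 0 ≤ T)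
    (H : ∀ σ : Fin d → Fin n → G, eLpNorm (lDisc (nPt ψ C σ)) ⊤
      (volume.restrict (Set.Icc (0 : Fin d → ℝ) 1)) ≤ ENNReal.ofReal (T / Fintype.card V))
    (u ℓ : ℕ) (hℓ : 1 ≤ ℓ) (hu : (b:ℝ) ^ u * T < Fintype.card V)
    (hul : 4 * d * (Fintype.card V : ℝ) ≤ (b:ℝ) ^ (u + ℓ)) :
    (3 / 4 : ℝ) * ((Fintype.piFinset (fun _ : Fin d => range (u / (ℓ * d)))).filter
        (fun k => ∑ i, k i = u / (ℓ * d))).card ≤ T := by
  have hb0 : (0:ℝ) < b := by exact_mod_cast (by omega : 0 < b)
  have hb1 : (1:ℝ) ≤ b := by exact_mod_cast (by omega : 1 ≤ b)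
  have hN : (0:ℝ) < Fintype.card V := by exact_mod_cast Fintype.card_pos
  set N := Fintype.card V with hNdef
  set K := u / (ℓ * d) with hK
  set r := u % (ℓ * d) with hr
  have hur : r + ℓ * (d * K) = u := by
    have := Nat.mod_add_div u (ℓ * d)
    rw [← hr, ← hK] at this
    rw [← mul_assoc]; exact this
  rcases Nat.eq_zero_or_pos K with hK0 | hK1
  · have h0 : (Fintype.piFinset (fun _ : Fin d => range K)).filter
        (fun k => ∑ i, k i = K) = ∅ := by
      rw [Finset.filter_eq_empty_iff]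
      intro k hk
      rw [Fintype.mem_piFinset] at hk
      have := hk ⟨0, hd⟩
      rw [hK0] at this
      simp at this
    rw [h0]
    simpa using hT
  -- offsets
  set ri : Fin d → ℕ := fun i => if i = ⟨0, hd⟩ then r else 0 with hri
  have hri_sum : ∑ i, ri i = r := by
    rw [hri, Finset.sum_ite_eq' univ]; simp
  have hri_le : ∀ i, ri i ≤ r := by
    intro i; rw [hri]; dsimp only; split_ifs <;> omega
  -- fairness
  have hfairW : ∀ c : Fin d → ℕ, ∑ i, c i ≤ u →
      (univ.filter (fun v : V => ∀ i, ∀ p < c i, dig C v i p = 0)).card * b ^ (∑ i, c i) = N := by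
    intro c hc
    apply fair hb hG ψ C T hT H
    refine lt_of_le_of_lt ?_ hu
    exact mul_le_mul_of_nonneg_right (pow_le_pow_right₀ hb1 hc) hT
  -- precision
  have hun : u ≤ n := by
    by_contra hcon
    push Not at hcon
    have h1 := hfairW (Function.update 0 ⟨0, hd⟩ n) (by
      rw [Finset.sum_update_of_mem (mem_univ _)]; simp; omega)
    have h2 := hfairW (Function.update 0 ⟨0, hd⟩ (n + 1)) (by
      rw [Finset.sum_update_of_mem (mem_univ _)]; simp; omega)
    have h3 : univ.filter (fun v : V => ∀ i, ∀ p < (Function.update (0 : Fin d → ℕ) ⟨0, hd⟩ n) i,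
        dig C v i p = 0) =
        univ.filter (fun v : V => ∀ i, ∀ p < (Function.update (0 : Fin d → ℕ) ⟨0, hd⟩ (n + 1)) i,
        dig C v i p = 0) := by
      ext v
      simp only [mem_filter, mem_univ, true_and]
      constructor
      · intro h i p hp
        by_cases hi : i = ⟨0, hd⟩
        · rw [hi, Function.update_self] at hp
          rcases Nat.lt_or_ge p n with hpn | hpn
          · apply h i p
            rw [hi, Function.update_self]; exact hpn
          · unfold dig
            rw [dif_neg (by omega)]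
        · rw [Function.update_of_ne hi] at hp
          simp at hp
      · intro h i p hp
        apply h i p
        by_cases hi : i = ⟨0, hd⟩
        · rw [hi, Function.update_self] at hp ⊢; omega
        · rw [Function.update_of_ne hi] at hp ⊢; exact hp
    rw [h3] at h1
    rw [Finset.sum_update_of_mem (mem_univ _)] at h1 h2
    simp only [Pi.zero_apply, sum_const_zero, add_zero] at h1 h2
    rw [← h1, pow_succ, ← mul_assoc] at h2
    have h4 : 0 < N := Fintype.card_pos
    rw [h1] at h2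
    have h5 : N * b = N * 1 := by rw [h2, mul_one]
    have := Nat.eq_of_mul_eq_mul_left h4 h5
    omega
  set B : ℝ := (b:ℝ) ^ ℓ with hB
  have hB0 : 0 < B := by positivity
  have hB1 : 1 < B := by
    rw [hB]
    have h2 : (2:ℝ) ≤ b := by exact_mod_cast hb
    calc (1:ℝ) < 2 := by norm_num
      _ ≤ b := h2
      _ = (b:ℝ) ^ 1 := (pow_one _).symm
      _ ≤ (b:ℝ) ^ ℓ := pow_le_pow_right₀ hb1 hℓ
  set M : ℝ := (N:ℝ) / (b:ℝ) ^ r with hM
  -- the statistic
  let Ω := {v : V // ∀ i, ∀ p < ri i, dig C v i p = 0}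
  let vv : Ω → Fin d → ℕ := fun w i =>
    Nat.findGreatest (fun k => ∀ p < ℓ * k, dig C w.1 i (ri i + p) = 0) (d * K)
  have hvv : ∀ (w : Ω) (i : Fin d) (j : ℕ), j ≤ d * K →
      (j ≤ vv w i ↔ ∀ p < ℓ * j, dig C w.1 i (ri i + p) = 0) := by
    intro w i j hj
    constructor
    · intro h p hp
      have h1 := Nat.findGreatest_spec (P := fun k => ∀ p < ℓ * k, dig C w.1 i (ri i + p) = 0)
        (m := 0) (n := d * K) (Nat.zero_le _) (by intro p hp; simp at hp)
      exact h1 p (lt_of_lt_of_le hp (Nat.mul_le_mul_left ℓ h))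
    · intro h
      exact Nat.le_findGreatest hj h
  have hfair' : ∀ j : Fin d → ℕ, ∑ i, j i ≤ d * K →
      ((univ.filter (fun w : Ω => ∀ i, j i ≤ vv w i)).card : ℝ) = M / B ^ (∑ i, j i) := by
    intro j hj
    have hji : ∀ i, j i ≤ d * K := fun i =>
      (Finset.single_le_sum (fun i _ => Nat.zero_le (j i)) (mem_univ i)).trans hj
    have h1 : (univ.filter (fun w : Ω => ∀ i, j i ≤ vv w i)).card =
        (univ.filter (fun v : V => ∀ i, ∀ p < (fun i => ri i + ℓ * j i) i,
          dig C v i p = 0)).card := by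
      have h2 : (univ.filter (fun w : Ω => ∀ i, j i ≤ vv w i)) =
          univ.filter (fun w : Ω => (fun v : V => ∀ i, ∀ p < ℓ * j i,
            dig C v i (ri i + p) = 0) w.1) := by
        apply Finset.filter_congr
        intro w _
        constructor
        · intro h i; exact (hvv w i (j i) (hji i)).mp (h i)
        · intro h i; exact (hvv w i (j i) (hji i)).mpr (h i)
      rw [h2]
      refine (card_sub (fun v : V => ∀ i, ∀ p < ri i, dig C v i p = 0)
        (fun v : V => ∀ i, ∀ p < ℓ * j i, dig C v i (ri i + p) = 0)).trans ?_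
      congr 1
      apply Finset.filter_congr
      intro v _
      constructor
      · rintro ⟨h3, h4⟩ i p hp
        dsimp only at hp
        rcases Nat.lt_or_ge p (ri i) with h5 | h5
        · exact h3 i p h5
        · have h6 := h4 i (p - ri i) (by omega)
          rwa [Nat.add_sub_cancel' h5] at h6
      · intro h
        refine ⟨fun i p hp => h i p (by dsimp only; omega), fun i p hp => h i _ (by
          dsimp only; omega)⟩
    have h2 : ∑ i, (ri i + ℓ * j i) = r + ℓ * ∑ i, j i := by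
      rw [Finset.sum_add_distrib, hri_sum, Finset.mul_sum]
    have h3 := hfairW (fun i => ri i + ℓ * j i) (by
      rw [h2, ← hur]
      exact Nat.add_le_add_left (Nat.mul_le_mul_left ℓ hj) r)
    rw [← h1, h2] at h3
    have h4 : ((univ.filter (fun w : Ω => ∀ i, j i ≤ vv w i)).card : ℝ) *
        (b:ℝ) ^ (r + ℓ * ∑ i, j i) = N := by exact_mod_cast h3
    rw [hM, hB, ← pow_mul, div_div, ← pow_add, eq_div_iff (by positivity)]
    exact h4
  have hvv0 : ∀ i, d * K ≤ vv ⟨0, fun i p _ => dig_zero C i p⟩ i := by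
    intro i
    rw [hvv _ _ _ le_rfl]
    intro p _
    exact dig_zero C i _
  have hsmall : d * M / B ^ (d * K) / B ≤ 1 / 4 := by
    have h1 : d * M / B ^ (d * K) / B = d * N / (b:ℝ) ^ (u + ℓ) := by
      rw [hM, hB, ← pow_mul, ← hur, pow_add, pow_add]
      field_simp
    rw [h1, div_le_iff₀ (by positivity)]
    linarith
  have hgrid := grid_deficit hd vv M B hB1.le (by positivity) K hfair' _ hvv0 hsmall
  refine hgrid.trans ?_
  -- now the discrepancy
  set σ := sh hb ψ ri ℓ K with hσ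
  set y : Fin d → ℝ := fun i => nPt ψ C σ 0 i with hy
  have hrin : ∀ i, ri i + ℓ * (d * K) ≤ n := by
    intro i
    have := hri_le i
    omega
  have hyval : ∀ i, y i = ∑ k ∈ range K,
      1 / (b:ℝ) ^ (ri i) * (1 / B ^ (d * k) * (1 - 1 / B)) :=
    fun i => y_val hd hb ψ C ri ℓ K hℓ i (hrin i)
  have h1B : 0 < 1 - 1 / B := by
    have : 1 / B < 1 := by rw [div_lt_one hB0]; exact hB1
    linarith
  have hypos : ∀ i, 0 < y i := by
    intro i
    rw [hyval i]
    apply Finset.sum_pos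
    · intro k _; positivity
    · exact ⟨0, mem_range.mpr hK1⟩
  have hyle : ∀ i, y i ≤ 1 := by
    intro i
    rw [hy]
    simp only
    rw [nPt_eq]
    have := lt_pow hb _ (xdig_le hb ψ C σ 0 i) 0 (by intro p hp; omega) n
    rw [pow_zero, div_one] at this
    exact this.le
  have hdisc := halfopen (nPt ψ C σ) (fun v i => nPt_nonneg ψ C σ v i) (T / N)
    (by positivity) (H σ) y hypos hyle
  have hdisc2 := (abs_le.mp hdisc).2
  -- volume
  have hvol : ∏ i, y i = ∑ k ∈ Fintype.piFinset (fun _ : Fin d => range K),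
      1 / (b:ℝ) ^ r * (1 / B ^ (∑ i, d * k i) * (1 - 1 / B) ^ d) := by
    rw [Finset.prod_congr rfl (fun i _ => hyval i), Finset.prod_univ_sum]
    apply Finset.sum_congr rfl
    intro k _
    rw [Finset.prod_mul_distrib, Finset.prod_mul_distrib, Finset.prod_const, card_univ,
      Fintype.card_fin]
    congr 1
    · simp only [one_div]
      rw [Finset.prod_inv_distrib, Finset.prod_pow_eq_pow_sum, hri_sum]
    · congr 1
      simp only [one_div]
      rw [Finset.prod_inv_distrib, Finset.prod_pow_eq_pow_sum]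
  have hvol2 : (N:ℝ) * ∏ i, y i = ∑ k ∈ Fintype.piFinset (fun _ : Fin d => range K),
      M / B ^ (∑ i, d * k i) * (1 - 1 / B) ^ d := by
    rw [hvol, Finset.mul_sum]
    apply Finset.sum_congr rfl
    intro k _
    rw [hM]
    ring
  -- counting
  have hcnt : (univ.filter (fun v : V => ∀ i, nPt ψ C σ v i < y i)).card ≤
      (univ.filter (fun w : Ω => ∃ k ∈ Fintype.piFinset (fun _ : Fin d => range K),
        ∀ i, vv w i = d * k i)).card := by
    rw [← Finset.card_map (Function.Embedding.subtype _)]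
    apply Finset.card_le_card
    intro v hv
    rw [mem_filter] at hv
    have hv2 := fun i => first_sel hb ψ C ri ℓ K i v (hv.2 i)
    choose p0 hp1 hp2 hp3 using hv2
    rw [mem_map]
    refine ⟨⟨v, ?_⟩, ?_, rfl⟩
    · intro i p hp
      exact hp2 i p (lt_of_lt_of_le hp (hp1 i).1)
    · rw [mem_filter]
      refine ⟨mem_univ _, fun i => (p0 i - ri i) / ℓ / d, ?_, ?_⟩
      · rw [Fintype.mem_piFinset]
        intro i
        rw [mem_range]
        exact Nat.div_lt_of_lt_mul (hp1 i).2.2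
      · intro i
        obtain ⟨h3, h4, h5⟩ := hp1 i
        rw [Nat.mul_div_cancel' h4]
        show Nat.findGreatest (fun k => ∀ p < ℓ * k, dig C v i (ri i + p) = 0) (d * K) = _
        rw [Nat.findGreatest_eq_iff]
        refine ⟨h5.le, ?_, ?_⟩
        · intro _ p hp
          apply hp2
          have := Nat.mul_div_le (p0 i - ri i) ℓ
          omega
        · intro m hm _ h6
          apply hp3 i
          have h7 := h6 (p0 i - ri i) (by
            have h8 := (Nat.div_lt_iff_lt_mul (by omega : 0 < ℓ)).mp hm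
            rw [mul_comm] at h8
            exact h8)
          rwa [Nat.add_sub_cancel' h3] at h7
  have hcnt' : ((univ.filter (fun v : V => ∀ i, nPt ψ C σ v i < y i)).card : ℝ) ≤
      ((univ.filter (fun w : Ω => ∃ k ∈ Fintype.piFinset (fun _ : Fin d => range K),
        ∀ i, vv w i = d * k i)).card : ℝ) := by exact_mod_cast hcnt
  rw [← hvol2]
  have h9 := mul_le_mul_of_nonneg_left hdisc2 hN.le
  have e1 : (N:ℝ) * (∏ i, y i - 1 / (N:ℝ) *
      ((univ.filter (fun v : V => ∀ i, nPt ψ C σ v i < y i)).card : ℝ)) =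
      N * ∏ i, y i - ((univ.filter (fun v : V => ∀ i, nPt ψ C σ v i < y i)).card : ℝ) := by
    field_simp
  have e2 : (N:ℝ) * (T / N) = T := by field_simp
  rw [e2] at h9
  have h10 : (N:ℝ) * ∏ i, y i -
      ((univ.filter (fun v : V => ∀ i, nPt ψ C σ v i < y i)).card : ℝ) ≤ T := by
    rw [← e1]; exact h9
  linarith

end main

end Pool.Agent.H580DN
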