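import Pool.Agent.H580DN.Comb
import Pool.Agent.H580DN.Disc
import Pool.Agent.H580DN.Dig

set_option autoImplicit false

namespace Pool.Agent.H580DN

open Finset MeasureTheory

section net

variable {d n b : ℕ} {G V : Type*} [AddCommGroup G] [AddCommGroup V]

/-- The points of a digitally shifted digital net. -/
noncomputable def nPt (ψ : Fin d → Fin n → G ≃ Fin b) (C : V →+ (Fin d → Fin n → G))
    (σ : Fin d → Fin n → G) (v : V) (i : Fin d) : ℝ :=
  ∑ j : Fin n, (((ψ i j (C v i j + σ i j) : Fin b) : ℕ) : ℝ) / (b:ℝ) ^ ((j:ℕ) + 1)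

/-- Zero-extended digits. -/
def dig (C : V →+ (Fin d → Fin n → G)) (v : V) (i : Fin d) (p : ℕ) : G :=
  if h : p < n then C v i ⟨p, h⟩ else 0

/-- Numerical digits of the point. -/
def xdig (ψ : Fin d → Fin n → G ≃ Fin b) (C : V →+ (Fin d → Fin n → G))
    (σ : Fin d → Fin n → G) (v : V) (i : Fin d) (p : ℕ) : ℝ :=
  if h : p < n then (((ψ i ⟨p, h⟩ (C v i ⟨p, h⟩ + σ i ⟨p, h⟩) : Fin b) : ℕ) : ℝ) else 0

lemma nPt_eq (ψ : Fin d → Fin n → G ≃ Fin b) (C : V →+ (Fin d → Fin n → G))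
    (σ : Fin d → Fin n → G) (v : V) (i : Fin d) :
    nPt ψ C σ v i = ∑ p ∈ range n, xdig ψ C σ v i p / (b:ℝ) ^ (p + 1) := by
  unfold nPt
  rw [← Fin.sum_univ_eq_sum_range (fun p => xdig ψ C σ v i p / (b:ℝ) ^ (p + 1)) n]
  apply Finset.sum_congr rfl
  intro j _
  unfold xdig
  rw [dif_pos j.2]

lemma xdig_nonneg (ψ : Fin d → Fin n → G ≃ Fin b) (C : V →+ (Fin d → Fin n → G))
    (σ : Fin d → Fin n → G) (v : V) (i : Fin d) (p : ℕ) : 0 ≤ xdig ψ C σ v i p := by
  unfold xdig; split_ifs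
  · positivity
  · exact le_rfl

lemma xdig_le (hb : 2 ≤ b) (ψ : Fin d → Fin n → G ≃ Fin b) (C : V →+ (Fin d → Fin n → G))
    (σ : Fin d → Fin n → G) (v : V) (i : Fin d) (p : ℕ) : xdig ψ C σ v i p ≤ (b:ℝ) - 1 := by
  have hb' : (2:ℝ) ≤ b := by exact_mod_cast hb
  unfold xdig; split_ifs with h
  · have h1 := (ψ i ⟨p, h⟩ (C v i ⟨p, h⟩ + σ i ⟨p, h⟩)).2
    have h2 : (((ψ i ⟨p, h⟩ (C v i ⟨p, h⟩ + σ i ⟨p, h⟩) : Fin b) : ℕ) : ℝ) + 1 ≤ b := by
      exact_mod_cast h1
    linarith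
  · linarith

lemma nPt_nonneg (ψ : Fin d → Fin n → G ≃ Fin b) (C : V →+ (Fin d → Fin n → G))
    (σ : Fin d → Fin n → G) (v : V) (i : Fin d) : 0 ≤ nPt ψ C σ v i := by
  unfold nPt
  exact Finset.sum_nonneg (fun j _ => by positivity)

lemma dig_add (C : V →+ (Fin d → Fin n → G)) (v w : V) (i : Fin d) (p : ℕ) :
    dig C (v + w) i p = dig C v i p + dig C w i p := by
  unfold dig; split_ifs
  · rw [map_add]; rfl
  · simp

lemma dig_zero (C : V →+ (Fin d → Fin n → G)) (i : Fin d) (p : ℕ) :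
    dig C 0 i p = 0 := by
  unfold dig; split_ifs
  · rw [map_zero]; rfl
  · rfl

/-- The truncated digit map. -/
def tHom (C : V →+ (Fin d → Fin n → G)) (c : Fin d → ℕ) :
    V →+ ((i : Fin d) → Fin (c i) → G) where
  toFun v i k := dig C v i k
  map_zero' := by funext i k; exact dig_zero C i k
  map_add' v w := by funext i k; exact dig_add C v w i k

lemma mem_ker_tHom (C : V →+ (Fin d → Fin n → G)) (c : Fin d → ℕ) (v : V) :
    v ∈ (tHom C c).ker ↔ ∀ i, ∀ p < c i, dig C v i p = 0 := by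
  rw [AddMonoidHom.mem_ker]
  constructor
  · intro h i p hp
    exact congrFun (congrFun h i) ⟨p, hp⟩
  · intro h
    funext i k
    exact h i k k.2

open Classical in
lemma card_dvd [Fintype G] [Fintype V] (hG : Fintype.card G = b)
    (C : V →+ (Fin d → Fin n → G)) (c : Fin d → ℕ) :
    Fintype.card V ∣
      (univ.filter (fun v : V => ∀ i, ∀ p < c i, dig C v i p = 0)).card * b ^ (∑ i, c i) := by
  have h1 : Nat.card V = Nat.card (tHom C c).ker * Nat.card (tHom C c).range := by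
    rw [← AddSubgroup.index_ker, AddSubgroup.card_mul_index]
  have h2 : Nat.card (tHom C c).range ∣ b ^ (∑ i, c i) := by
    have h3 := AddSubgroup.card_addSubgroup_dvd_card (tHom C c).range
    have h4 : Nat.card ((i : Fin d) → Fin (c i) → G) = b ^ (∑ i, c i) := by
      rw [Nat.card_eq_fintype_card, Fintype.card_pi]
      simp only [Fintype.card_pi, Finset.prod_const, hG, card_univ, Fintype.card_fin]
      rw [Finset.prod_pow_eq_pow_sum]
    rwa [h4] at h3
  have h5 : Nat.card (tHom C c).ker =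
      (univ.filter (fun v : V => ∀ i, ∀ p < c i, dig C v i p = 0)).card := by
    rw [Nat.card_eq_fintype_card, Fintype.card_subtype]
    congr 1
    ext v
    simp only [mem_filter, mem_univ, true_and]
    exact mem_ker_tHom C c v
  rw [← h5, ← Nat.card_eq_fintype_card, h1]
  exact mul_dvd_mul_left _ h2

open Classical in
/-- Fairness of all corners above the discrepancy scale. -/
lemma fair [Fintype G] [Fintype V] (hb : 2 ≤ b) (hG : Fintype.card G = b)
    (ψ : Fin d → Fin n → G ≃ Fin b) (C : V →+ (Fin d → Fin n → G)) (T : ℝ) (hT : 0 ≤ T)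
    (H : ∀ σ : Fin d → Fin n → G, eLpNorm (lDisc (nPt ψ C σ)) ⊤
      (volume.restrict (Set.Icc (0 : Fin d → ℝ) 1)) ≤ ENNReal.ofReal (T / Fintype.card V))
    (c : Fin d → ℕ) (hc : (b:ℝ) ^ (∑ i, c i) * T < Fintype.card V) :
    (univ.filter (fun v : V => ∀ i, ∀ p < c i, dig C v i p = 0)).card * b ^ (∑ i, c i) =
      Fintype.card V := by
  have hb0 : (0:ℝ) < b := by exact_mod_cast (by omega : 0 < b)
  have hb1 : (1:ℝ) ≤ b := by exact_mod_cast (by omega : 1 ≤ b)
  have hN : (0:ℝ) < Fintype.card V := by exact_mod_cast Fintype.card_pos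
  set σ : Fin d → Fin n → G := fun i j => (ψ i j).symm ⟨0, by omega⟩ with hσ
  have h1 := halfopen (nPt ψ C σ) (fun v i => nPt_nonneg ψ C σ v i) (T / Fintype.card V)
    (by positivity) (H σ) (fun i => 1 / (b:ℝ) ^ (c i)) (fun i => by positivity)
    (fun i => by
      rw [div_le_one (by positivity)]
      exact one_le_pow₀ hb1)
  set W := univ.filter (fun v : V => ∀ i, ∀ p < c i, dig C v i p = 0) with hW
  have h2 : W ⊆ univ.filter (fun v : V => ∀ i, nPt ψ C σ v i <
      (fun i => 1 / (b:ℝ) ^ (c i)) i) := by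
    intro v hv
    rw [hW, mem_filter] at hv
    rw [mem_filter]
    refine ⟨mem_univ _, ?_⟩
    intro i
    rw [nPt_eq]
    apply lt_pow hb _ (xdig_le hb ψ C σ v i)
    intro p hp
    have h3 := hv.2 i p hp
    unfold dig at h3
    unfold xdig
    split_ifs with h4
    · rw [dif_pos h4] at h3
      rw [h3, zero_add, hσ]
      simp
    · rfl
  have h3 : (W.card : ℝ) ≤ ((univ.filter (fun v : V => ∀ i, nPt ψ C σ v i <
      (fun i => 1 / (b:ℝ) ^ (c i)) i)).card : ℝ) := by
    exact_mod_cast Finset.card_le_card h2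
  have h4 := (abs_le.mp h1).1
  have h5 : ∏ i, (fun i => 1 / (b:ℝ) ^ (c i)) i = 1 / (b:ℝ) ^ (∑ i, c i) := by
    simp only [one_div]
    rw [Finset.prod_inv_distrib, Finset.prod_pow_eq_pow_sum]
  rw [h5] at h4
  have hP : (0:ℝ) < (b:ℝ) ^ (∑ i, c i) := by positivity
  have h6 : (W.card : ℝ) ≤ Fintype.card V / (b:ℝ) ^ (∑ i, c i) + T := by
    have h7 : 1 / (Fintype.card V : ℝ) * (W.card : ℝ) ≤
        1 / (b:ℝ) ^ (∑ i, c i) + T / Fintype.card V := by
      have := mul_le_mul_of_nonneg_left h3 (by positivity : 0 ≤ 1 / (Fintype.card V : ℝ))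
      linarith
    have h8 := mul_le_mul_of_nonneg_left h7 hN.le
    have e1 : (Fintype.card V : ℝ) * (1 / (Fintype.card V : ℝ) * (W.card : ℝ)) = W.card := by
      field_simp
    have e2 : (Fintype.card V : ℝ) * (1 / (b:ℝ) ^ (∑ i, c i) + T / Fintype.card V) =
      Fintype.card V / (b:ℝ) ^ (∑ i, c i) + T := by
      field_simp
    rw [e1, e2] at h8
    exact h8
  have h7 : (W.card : ℝ) * (b:ℝ) ^ (∑ i, c i) < 2 * Fintype.card V := by
    have h8 := mul_le_mul_of_nonneg_right h6 hP.le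
    have e2 : (Fintype.card V / (b:ℝ) ^ (∑ i, c i) + T) * (b:ℝ) ^ (∑ i, c i) =
        Fintype.card V + (b:ℝ) ^ (∑ i, c i) * T := by
      field_simp
    rw [e2] at h8
    linarith
  have h8 : W.card * b ^ (∑ i, c i) < 2 * Fintype.card V := by exact_mod_cast h7
  have h9 : Fintype.card V ∣ W.card * b ^ (∑ i, c i) := card_dvd hG C c
  obtain ⟨t, ht⟩ := h9
  have h10 : 0 < W.card * b ^ (∑ i, c i) := by
    apply Nat.mul_pos
    · rw [Finset.card_pos]
      exact ⟨0, by rw [hW, mem_filter]; exact ⟨mem_univ _, fun i p _ => dig_zero C i p⟩⟩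
    · positivity
  rw [ht] at h8 h10 ⊢
  have h11 : t < 2 := by
    by_contra hcon
    push Not at hcon
    have := Nat.mul_le_mul_left (Fintype.card V) hcon
    omega
  have h12 : 0 < t := Nat.pos_of_mul_pos_right h10 |> fun h => by
    rcases Nat.eq_zero_or_pos t with h0 | h0
    · rw [h0, mul_zero] at h10; omega
    · exact h0
  have : t = 1 := by omega
  rw [this, mul_one]

end net

end Pool.Agent.H580DN
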