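import Mathlib

set_option autoImplicit false

namespace Pool.Agent.H580DN

open Real

lemma final_real {d b : ℕ} {N : ℝ} (hd : 2 ≤ d) (hb : 2 ≤ b) (hN : 3 ≤ N) {X : ℝ}
    (hX : X = log N / (12 * d ^ 3 * (log b + log (log N)))) (hX1 : 1 < X)
    (hmain : ∀ u ℓ : ℕ, 1 ≤ ℓ → (b:ℝ) ^ u * (1 / 2 * X ^ (d - 1)) < N →
      4 * d * N ≤ (b:ℝ) ^ (u + ℓ) →
      (3 / 4) * ((u / (ℓ * d) / d : ℕ) : ℝ) ^ (d - 1) ≤ 1 / 2 * X ^ (d - 1)) : False := by
  have hlog3 : 1 < log 3 := by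
    rw [Real.lt_log_iff_exp_lt (by norm_num)]
    have := Real.exp_one_lt_d9
    linarith
  have hN0 : 0 < N := by linarith
  set L := log N with hL
  have hL1 : 1 < L := hlog3.trans_le (Real.log_le_log (by norm_num) hN)
  set LL := log L with hLL
  have hLL0 : 0 < LL := Real.log_pos hL1
  set lb := log (b:ℝ) with hlb
  have hb2 : (2:ℝ) ≤ b := by exact_mod_cast hb
  have hb1 : (1:ℝ) < b := by linarith
  have hb0 : (0:ℝ) < b := by linarith
  have hlb0 : 0.69 < lb := by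
    have h1 := Real.log_two_gt_d9
    have h2 : log 2 ≤ lb := Real.log_le_log (by norm_num) hb2
    linarith
  have hd2 : (2:ℝ) ≤ d := by exact_mod_cast hd
  have hd3 : (8:ℝ) ≤ (d:ℝ) ^ 3 := by
    calc (8:ℝ) = 2 ^ 3 := by norm_num
      _ ≤ (d:ℝ) ^ 3 := pow_le_pow_left₀ (by norm_num) hd2 3
  have hden : 0 < 12 * (d:ℝ) ^ 3 * (lb + LL) := by positivity
  have hXL : X * (12 * (d:ℝ) ^ 3 * (lb + LL)) = L := by
    rw [hX]; field_simp
  have hLbig : 12 * (d:ℝ) ^ 3 * (lb + LL) < L := by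
    rw [← hXL]
    exact lt_mul_of_one_lt_left hden hX1
  have hL3 : 3 < L := by
    have h1 : 12 * (8:ℝ) * (0.69 + 0) ≤ 12 * (d:ℝ) ^ 3 * (lb + LL) := by
      apply mul_le_mul
      · linarith
      · linarith
      · norm_num
      · positivity
    linarith
  have hLL1 : 1 < LL := hlog3.trans (Real.log_lt_log (by norm_num) hL3)
  have hX0 : 0 < X := by linarith
  have hXleL : X ≤ L := by
    rw [← hXL]
    apply le_mul_of_one_le_right hX0.le
    have h1 : 12 * (8:ℝ) * (0.69 + 0) ≤ 12 * (d:ℝ) ^ 3 * (lb + LL) := by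
      apply mul_le_mul
      · linarith
      · linarith
      · norm_num
      · positivity
    linarith
  have hlogX : log X ≤ LL := Real.log_le_log hX0 hXleL
  have hlogX0 : 0 < log X := Real.log_pos hX1
  have hd1 : ((d - 1 : ℕ) : ℝ) ≤ d := by exact_mod_cast Nat.sub_le d 1
  have hpow : log (X ^ (d - 1)) ≤ d * LL := by
    rw [Real.log_pow]
    exact mul_le_mul hd1 hlogX hlogX0.le (by positivity)
  have hXp : 1 ≤ X ^ (d - 1) := one_le_pow₀ hX1.le
  have hXp0 : 0 < X ^ (d - 1) := by positivity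
  -- `d LL ≤ L / 48`
  have hdLL : d * LL ≤ L / 48 := by
    have h1 : 12 * (d:ℝ) ^ 3 * LL ≤ L := by
      refine le_trans ?_ hLbig.le
      apply mul_le_mul_of_nonneg_left _ (by positivity)
      linarith
    have h2 : (d:ℝ) ^ 3 = d * d ^ 2 := by ring
    have h3 : (4:ℝ) ≤ (d:ℝ) ^ 2 := by
      calc (4:ℝ) = 2 ^ 2 := by norm_num
        _ ≤ (d:ℝ) ^ 2 := pow_le_pow_left₀ (by norm_num) hd2 2
    have h4 : 48 * (d * LL) ≤ 12 * (d:ℝ) ^ 3 * LL := by
      rw [h2]
      have h5 : 0 ≤ d * LL := by positivity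
      have h6 := mul_le_mul_of_nonneg_left h3 h5
      linarith
    linarith
  set x := N / X ^ (d - 1) with hx
  have hx0 : 0 < x := by positivity
  have hlogx : 47 / 48 * L ≤ log x := by
    rw [hx, Real.log_div hN0.ne' hXp0.ne']
    linarith
  have hx1 : 1 ≤ x := by
    by_contra hcon
    push Not at hcon
    have := Real.log_neg hx0 hcon
    linarith
  obtain ⟨u, hu1, hu2⟩ := exists_nat_pow_near hx1 hb1
  set y := 4 * d * X ^ (d - 1) with hy
  have hy1 : 1 ≤ y := by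
    rw [hy]
    have h1 : (1:ℝ) ≤ 4 * d := by linarith
    exact one_le_mul_of_one_le_of_one_le h1 hXp
  have hy0 : 0 < y := by linarith
  have hlogy : log y ≤ 5 * d * LL := by
    rw [hy, Real.log_mul (by positivity) hXp0.ne']
    have h1 : log (4 * (d:ℝ)) ≤ 4 * d - 1 := Real.log_le_sub_one_of_pos (by positivity)
    have h2 : 4 * (d:ℝ) ≤ 4 * d * LL := le_mul_of_one_le_right (by positivity) hLL1.le
    linarith
  obtain ⟨k, hk1, hk2⟩ := exists_nat_pow_near hy1 hb1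
  have h1 := hmain u (k + 2) (by omega) (by
    calc (b:ℝ) ^ u * (1 / 2 * X ^ (d - 1)) ≤ x * (1 / 2 * X ^ (d - 1)) :=
          mul_le_mul_of_nonneg_right hu1 (by positivity)
      _ = N / 2 := by rw [hx]; field_simp
      _ < N := by linarith) (by
    calc 4 * d * N = x * y := by rw [hx, hy]; field_simp
      _ ≤ (b:ℝ) ^ (u + 1) * (b:ℝ) ^ (k + 1) :=
          mul_le_mul hu2.le hk2.le hy0.le (by positivity)
      _ = (b:ℝ) ^ (u + (k + 2)) := by rw [← pow_add]; congr 1; ring)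
  set f := u / ((k + 2) * d) / d with hf
  have hfeq : f = u / ((k + 2) * d * d) := by rw [hf, Nat.div_div_eq_div_mul]
  have hlt : u + 1 ≤ (k + 2) * d * d * (f + 1) := by
    rw [hfeq]
    exact Nat.lt_mul_div_succ u (by positivity)
  have hltR : (u:ℝ) + 1 ≤ ((k:ℝ) + 2) * d * d * (f + 1) := by exact_mod_cast hlt
  have hu3 : 47 / 48 * L < (u + 1) * lb := by
    have h2 := Real.log_lt_log hx0 hu2
    rw [Real.log_pow] at h2
    push_cast at h2
    linarith
  have hk3 : (k:ℝ) * lb ≤ 5 * d * LL := by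
    have h2 := Real.log_le_log (by positivity) hk1
    rw [Real.log_pow] at h2
    linarith
  have hℓ : ((k:ℝ) + 2) * lb ≤ 5 * d * (lb + LL) := by
    have h2 : 2 * lb ≤ 5 * d * lb := by
      apply mul_le_mul_of_nonneg_right _ (by linarith)
      linarith
    linarith
  have hf0 : (0:ℝ) ≤ f := Nat.cast_nonneg f
  have h2 : (u + 1) * lb ≤ 5 / 12 * (12 * (d:ℝ) ^ 3 * (lb + LL)) * (f + 1) := by
    calc (u + 1) * lb ≤ (((k:ℝ) + 2) * d * d * (f + 1)) * lb :=
          mul_le_mul_of_nonneg_right hltR (by linarith)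
      _ = (((k:ℝ) + 2) * lb) * (d * d * (f + 1)) := by ring
      _ ≤ (5 * d * (lb + LL)) * (d * d * (f + 1)) :=
          mul_le_mul_of_nonneg_right hℓ (by positivity)
      _ = 5 / 12 * (12 * (d:ℝ) ^ 3 * (lb + LL)) * (f + 1) := by ring
  have h3 : X < f := by
    have h4 : 47 / 48 * (X * (12 * (d:ℝ) ^ 3 * (lb + LL))) <
        5 / 12 * (12 * (d:ℝ) ^ 3 * (lb + LL)) * (f + 1) := by
      rw [hXL]; linarith
    have h5 : (47 / 48 * X) * (12 * (d:ℝ) ^ 3 * (lb + LL)) <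
        (5 / 12 * (f + 1)) * (12 * (d:ℝ) ^ 3 * (lb + LL)) := by
      calc (47 / 48 * X) * (12 * (d:ℝ) ^ 3 * (lb + LL)) =
          47 / 48 * (X * (12 * (d:ℝ) ^ 3 * (lb + LL))) := by ring
        _ < _ := h4
        _ = (5 / 12 * (f + 1)) * (12 * (d:ℝ) ^ 3 * (lb + LL)) := by ring
    have h6 := lt_of_mul_lt_mul_right h5 hden.le
    linarith
  have h7 : X ^ (d - 1) ≤ (f:ℝ) ^ (d - 1) := pow_le_pow_left₀ hX0.le h3.le _
  linarith

end Pool.Agent.H580DN
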